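import Mathlib
import Pool.Agent.Helper52.WcoDefs
import Pool.Agent.Helper52.WcoFinal

set_option autoImplicit false

open Filter Topology Pool.Agent.Helper52.Wco

/-- For every `d ≥ 3` there are an elliptic finite Blaschke product `B` of degree `d` (namely
`z ^ d`) and a weight `w` in the disc algebra such that the upper semi-Fredholm spectrum of the
weighted composition operator `T f = w (f ∘ B)` contains a whole punctured disc around zero.
Hence the set of radii `Lam T` is uncountable and has positive accumulation points. -/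
theorem Pool.Agent.Results.MP_af3eb4_an.DiscInSpectrum.result :
    ∀ d : ℕ, 3 ≤ d →
      ∃ B : Disc → Disc, IsBlaschke d B ∧ IsElliptic B ∧
        ∃ (w : discAlgebra) (T : discAlgebra →L[ℂ] discAlgebra), IsWeightedComp B w T ∧
          (∃ r₀ : ℝ, 0 < r₀ ∧ ∀ μ : ℂ, 0 < ‖μ‖ → ‖μ‖ < r₀ → μ ∈ usf T) ∧
          ¬ (Lam T).Countable ∧
          ∃ r : ℝ, 0 < r ∧ AccPt r (𝓟 (Lam T)) :=
  main_theorem
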